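import Mathlib
import Pool.Agent.K6.H13.TIG.Basic
import Pool.Agent.K6.H13.TIG.ThreeThree
import Pool.Agent.K6.H13.TIG.Exceptional
import Pool.Agent.K6.H13.TIG.Generic

set_option autoImplicit false

namespace Pool.Agent.Results.MP_d7a06f_lc.CompleteFormula

open Pool.Agent.K6.H13.TIG

/-- The value of the Three Intervals Game with lengths `1/u`, `1/v`, `1/w`. The natural number
`(w + 2) / 3` of the first case is `w / 3` rounded up. -/
noncomputable def value (u v w : ℕ) : ℝ :=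
  if u = 3 ∧ v = 3 then 1 / 3 - 1 / (3 * (((w + 2) / 3 : ℕ) : ℝ))
  else if u = 3 ∧ v = 4 ∧ w = 4 then 1 / 5
  else if u = 3 ∧ v = 4 ∧ w = 5 then 13 / 56
  else if u = 3 ∧ v = 4 ∧ w = 7 then 13 / 47
  else if u = 3 ∧ v = 4 ∧ w = 8 then 5 / 17
  else if u = 3 ∧ v = 4 ∧ w = 10 then 13 / 41
  else if u = 3 ∧ v = 4 ∧ w = 11 then 31 / 95
  else if u = 3 ∧ v = 4 ∧ w = 13 then 15 / 44
  else if u = 3 ∧ v = 4 ∧ w = 17 then 34 / 95
  else if u = 3 ∧ v = 5 ∧ w = 5 then 3 / 11
  else if u = 3 ∧ v = 5 ∧ w = 7 then 53 / 163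
  else 1 - 1 / (u : ℝ) - 1 / v - 1 / w

/-- **The value `G(u, v, w)` of the Three Intervals Game for all integers `3 ≤ u ≤ v ≤ w`.** -/
theorem result (u v w : ℕ) (hu : 3 ≤ u) (huv : u ≤ v) (hvw : v ≤ w) :
    G3 u v w = value u v w := by
  by_cases h0 : u = 3 ∧ v = 3
  · obtain ⟨rfl, rfl⟩ := h0
    have e : value 3 3 w = 1 / 3 - 1 / (3 * (((w + 2) / 3 : ℕ) : ℝ)) := by
      unfold value
      rw [if_pos ⟨rfl, rfl⟩]
    rw [e]
    exact G3_33 ((w + 2) / 3) w (by omega) (by omega) (by omega)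
  by_cases hE : Exc u v w
  · rcases hE with ⟨rfl, rfl, hw⟩ | ⟨rfl, rfl, hw⟩
    · rcases hw with rfl | rfl | rfl | rfl | rfl | rfl | rfl | rfl
      · rw [val_3_4_4]; norm_num [value]
      · rw [val_3_4_5]; norm_num [value]
      · rw [val_3_4_7]; norm_num [value]
      · rw [val_3_4_8]; norm_num [value]
      · rw [val_3_4_10]; norm_num [value]
      · rw [val_3_4_11]; norm_num [value]
      · rw [val_3_4_13]; norm_num [value]
      · rw [val_3_4_17]; norm_num [value]
    · rcases hw with rfl | rfl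
      · rw [val_3_5_5]; norm_num [value]
      · rw [val_3_5_7]; norm_num [value]
  · have e : value u v w = 1 - 1 / (u : ℝ) - 1 / v - 1 / w := by
      unfold Exc at hE
      unfold value
      rw [if_neg h0]
      iterate 10 rw [if_neg (by omega)]
    rw [e]
    exact G3_generic u v w hu huv hvw h0 hE

end Pool.Agent.Results.MP_d7a06f_lc.CompleteFormula
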